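import Pool.Agent.helper62.VD.SpecE

/-!
# MP_07c750 (QUE), project VD, block E, row ECT: chain transitivity
-/

set_option autoImplicit false

open MeasureTheory Filter Set Topology
open scoped ENNReal

namespace Pool.Agent.VDE

noncomputable section

section ch
variable {Γ S : Type} [Group Γ] [TopologicalSpace S] [MeasurableSpace S] [MulAction Γ S] {μ : Measure S} {F0 K : Set S} {d : S → S → ℝ} {f : ℝ → S → S}

theorem ECT_mono {δ δ' : ℝ} {n : ℕ} {p q : S} (h : Chn Γ d f δ n p q) (hδ : δ ≤ δ') : Chn Γ d f δ' n p q := by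
  obtain ⟨γ, x, h0, h1, h2⟩ := h
  exact ⟨γ, x, h0, h1, fun i hi => (h2 i hi).trans_le hδ⟩

theorem ECT_left (H : BF Γ S μ F0 K d f) {δ : ℝ} {n : ℕ} {p q : S} (γ0 : Γ) (h : Chn Γ d f δ n p q) : Chn Γ d f δ n (γ0 • p) q := by
  obtain ⟨γ, x, h0, h1, h2⟩ := h
  refine ⟨γ0 * γ, fun i => γ0 • x i, by show γ0 • x 0 = _; rw [h0], by show γ0 • x n = _; rw [h1, mul_smul], fun i hi => ?_⟩
  show d (f 1 (γ0 • x i)) (γ0 • x (i + 1)) < δ
  rw [H.fe, H.di]
  exact h2 i hi

theorem ECT_right {δ : ℝ} {n : ℕ} {p q : S} (γ0 : Γ) (h : Chn Γ d f δ n p (γ0 • q)) : Chn Γ d f δ n p q := by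
  obtain ⟨γ, x, h0, h1, h2⟩ := h
  exact ⟨γ * γ0, x, h0, by rw [h1, mul_smul], h2⟩

theorem ECT_cat (H : BF Γ S μ F0 K d f) {δ : ℝ} {n m : ℕ} {p q r : S} (h : Chn Γ d f δ n p q) (h' : Chn Γ d f δ m q r) : Chn Γ d f δ (n + m) p r := by
  obtain ⟨γ, x, h0, h1, h2⟩ := h
  obtain ⟨γ', y, k0, k1, k2⟩ := h'
  have hz : ∀ i, n ≤ i → (if i ≤ n then x i else γ • y (i - n)) = γ • y (i - n) := by
    intro i hi
    by_cases hin : i ≤ n
    · have : i = n := le_antisymm hin hi
      subst this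
      rw [if_pos le_rfl, h1, Nat.sub_self, k0]
    · rw [if_neg hin]
  refine ⟨γ * γ', fun i => if i ≤ n then x i else γ • y (i - n), ?_, ?_, ?_⟩
  · show (if 0 ≤ n then x 0 else γ • y (0 - n)) = p
    rw [if_pos (Nat.zero_le n), h0]
  · show (if n + m ≤ n then x (n + m) else γ • y (n + m - n)) = _
    rw [hz _ (Nat.le_add_right n m), Nat.add_sub_cancel_left, k1, mul_smul]
  · intro i hi
    show d (f 1 (if i ≤ n then x i else γ • y (i - n))) (if i + 1 ≤ n then x (i + 1) else γ • y (i + 1 - n)) < δ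
    by_cases hin : i < n
    · rw [if_pos hin.le, if_pos (Nat.succ_le_of_lt hin)]
      exact h2 i hin
    · have hin' : n ≤ i := not_lt.1 hin
      rw [hz i hin', hz (i + 1) (by omega), H.fe, H.di]
      have e : i + 1 - n = i - n + 1 := by omega
      rw [e]
      exact k2 (i - n) (by omega)

theorem ECT_last (H : BF Γ S μ F0 K d f) {δ δ' : ℝ} {n : ℕ} {p q q' : S} (hn : 1 ≤ n) (h : Chn Γ d f δ n p q) (hq : d q q' ≤ δ') (hδ : 0 ≤ δ') :
    Chn Γ d f (δ + δ') n p q' := by
  classical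
  obtain ⟨γ, x, h0, h1, h2⟩ := h
  refine ⟨γ, Function.update x n (γ • q'), ?_, ?_, ?_⟩
  · rw [Function.update_of_ne (by omega)]
    exact h0
  · rw [Function.update_self]
  · intro i hi
    rw [Function.update_of_ne (by omega : i ≠ n)]
    by_cases hin : i + 1 = n
    · rw [hin, Function.update_self]
      have h3 := h2 i hi
      rw [hin, h1] at h3
      have h4 := H.dt (f 1 (x i)) (γ • q) (γ • q')
      rw [H.di] at h4
      linarith
    · rw [Function.update_of_ne hin]
      have := h2 i hi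
      linarith

theorem ECT_first (H : BF Γ S μ F0 K d f) {δ δ' : ℝ} {n : ℕ} {p p' q : S} (hn : 1 ≤ n) (h : Chn Γ d f δ n p q) (hp : d (f 1 p') (f 1 p) ≤ δ') (hδ : 0 ≤ δ') :
    Chn Γ d f (δ + δ') n p' q := by
  classical
  obtain ⟨γ, x, h0, h1, h2⟩ := h
  refine ⟨γ, Function.update x 0 p', ?_, ?_, ?_⟩
  · rw [Function.update_self]
  · rw [Function.update_of_ne (by omega)]
    exact h1
  · intro i hi
    rw [Function.update_of_ne (by omega : i + 1 ≠ 0)]
    by_cases hi0 : i = 0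
    · subst hi0
      rw [Function.update_self]
      have h3 := h2 0 hi
      rw [h0] at h3
      have h4 := H.dt (f 1 p') (f 1 p) (x (0 + 1))
      linarith
    · rw [Function.update_of_ne hi0]
      have := h2 i hi
      linarith

end ch

/-- recurrence: `p ⇝ p` -/
theorem ECT_self (h1 : EUC_stmt) (h2 : EPR_stmt) (Γ S : Type) [Group Γ] [TopologicalSpace S] [SecondCountableTopology S] [MeasurableSpace S] [BorelSpace S] [MulAction Γ S]
    (μ : Measure S) (F0 K : Set S) (d : S → S → ℝ) (f : ℝ → S → S) (H : BF Γ S μ F0 K d f) (δ : ℝ) (hδ : 0 < δ) (p : S) :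
    ∃ n : ℕ, 1 ≤ n ∧ Chn Γ d f δ n p p := by
  obtain ⟨δ1, hδ1, hE⟩ := (h1 Γ S μ F0 K d f H).2.1 1 (δ / 2) (by positivity)
  have hm : 0 < min δ1 (δ / 2) := lt_min hδ1 (by positivity)
  obtain ⟨w, n, γ, hn, hpw, hw⟩ := h2 Γ S μ F0 K d f H p (min δ1 (δ / 2)) hm
  have hch : Chn Γ d f (δ / 2) n w p := by
    refine ⟨γ, fun i => if i < n then f i w else γ • p, ?_, ?_, ?_⟩
    · show (if 0 < n then f ((0 : ℕ) : ℝ) w else γ • p) = w
      rw [if_pos (by omega), Nat.cast_zero, H.f0]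
    · show (if n < n then f (n : ℝ) w else γ • p) = γ • p
      rw [if_neg (lt_irrefl n)]
    · intro i hi
      show d (f 1 (if i < n then f (i : ℝ) w else γ • p)) (if i + 1 < n then f ((i + 1 : ℕ) : ℝ) w else γ • p) < δ / 2
      rw [if_pos hi, ← H.fa]
      by_cases hi1 : i + 1 < n
      · rw [if_pos hi1]
        have e : (1 : ℝ) + i = ((i + 1 : ℕ) : ℝ) := by push_cast; ring
        rw [e, H.dz]
        positivity
      · have e1 : i + 1 = n := by omega
        have e : (1 : ℝ) + i = (n : ℝ) := by rw [← e1]; push_cast; ring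
        rw [if_neg hi1, e]
        exact hw.trans_le (min_le_right _ _)
  refine ⟨n, hn, ?_⟩
  have h3 := ECT_first H hn hch (hE p w (hpw.le.trans (min_le_left _ _)) 1 (by simp)) (by positivity)
  exact ECT_mono h3 (by linarith)

/-- chain transitivity without a bound for the length -/
theorem ECT_all (h1 : EUC_stmt) (h2 : EPR_stmt) (Γ S : Type) [Group Γ] [TopologicalSpace S] [SecondCountableTopology S] [PreconnectedSpace S] [MeasurableSpace S] [BorelSpace S] [MulAction Γ S]
    (μ : Measure S) (F0 K : Set S) (d : S → S → ℝ) (f : ℝ → S → S) (H : BF Γ S μ F0 K d f) (δ : ℝ) (hδ : 0 < δ) (p q : S) :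
    ∃ n : ℕ, 1 ≤ n ∧ Chn Γ d f δ n p q := by
  have hball : ∀ (x : S) (r : ℝ), IsOpen {y | d x y < r} := by
    intro x r
    have hc : Continuous fun y => d x y := H.dc.comp (Continuous.prodMk_right x)
    exact isOpen_lt hc continuous_const
  let C : Set S := {q | ∃ n : ℕ, 1 ≤ n ∧ Chn Γ d f δ n p q}
  have hopen : IsOpen C := by
    rw [isOpen_iff_forall_mem_open]
    rintro q ⟨n, hn, γ, x, x0, xn, hx⟩
    obtain ⟨m, rfl⟩ : ∃ m, n = m + 1 := ⟨n - 1, by omega⟩
    have hlast := hx m (Nat.lt_succ_self m)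
    rw [xn] at hlast
    refine ⟨{y | d q y < δ - d (f 1 (x m)) (γ • q)}, ?_, hball _ _, ?_⟩
    · intro q' hq'
      have hq2 : d q q' < δ - d (f 1 (x m)) (γ • q) := hq'
      classical
      refine ⟨m + 1, hn, γ, Function.update x (m + 1) (γ • q'), ?_, ?_, ?_⟩
      · rw [Function.update_of_ne (by omega)]
        exact x0
      · rw [Function.update_self]
      · intro i hi
        rw [Function.update_of_ne (by omega : i ≠ m + 1)]
        by_cases hin : i = m
        · subst hin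
          rw [Function.update_self]
          have h4 := H.dt (f 1 (x i)) (γ • q) (γ • q')
          rw [H.di] at h4
          linarith
        · rw [Function.update_of_ne (by omega)]
          exact hx i hi
    · show d q q < δ - d (f 1 (x m)) (γ • q)
      rw [H.dz]
      linarith
  have hclosed : IsClosed C := by
    apply isClosed_of_closure_subset
    intro q hq
    rw [mem_closure_iff] at hq
    obtain ⟨q', hq', n, hn, hch⟩ := hq {y | d q y < δ / 2} (hball _ _) (by show d q q < δ / 2; rw [H.dz]; positivity)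
    obtain ⟨m, hm, hch2⟩ := ECT_self h1 h2 Γ S μ F0 K d f H (δ / 2) (by positivity) q'
    have hq2 : d q' q ≤ δ / 2 := by
      rw [H.ds]
      exact le_of_lt hq'
    have h3 := ECT_last H hm hch2 hq2 (by positivity)
    have h4 := ECT_mono (δ' := δ) h3 (by linarith)
    exact ⟨n + m, by omega, ECT_cat H hch h4⟩
  have hne : C.Nonempty := ⟨p, ECT_self h1 h2 Γ S μ F0 K d f H δ hδ p⟩
  have huniv : C = univ := IsClopen.eq_univ ⟨hclosed, hopen⟩ hne
  have hq : q ∈ C := by rw [huniv]; exact mem_univ q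
  exact hq

/-- **ECT** -/
theorem ECT_proof (h1 : EUC_stmt) (h2 : EPR_stmt) : ECT_stmt := by
  intro Γ S _ _ _ _ _ _ _ μ F0 K d f H δ hδ
  obtain ⟨δ1, hδ1, hE⟩ := (h1 Γ S μ F0 K d f H).2.1 1 (δ / 4) (by positivity)
  have hm : 0 < min δ1 (δ / 4) := lt_min hδ1 (by positivity)
  have hball : ∀ (x : S) (r : ℝ), IsOpen {y | d x y < r} := by
    intro x r
    have hc : Continuous fun y => d x y := H.dc.comp (Continuous.prodMk_right x)
    exact isOpen_lt hc continuous_const
  obtain ⟨t, ht, hcov⟩ := H.cpt.1.elim_nhds_subcover (fun c => {y | d c y < min δ1 (δ / 4)})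
    (fun x _ => (hball x _).mem_nhds (by show d x x < _; rw [H.dz]; exact hm))
  have hall : ∀ a b : S, ∃ n : ℕ, 1 ≤ n ∧ Chn Γ d f (δ / 2) n a b := fun a b =>
    ECT_all h1 h2 Γ S μ F0 K d f H (δ / 2) (by positivity) a b
  choose len hlen1 hlen2 using hall
  refine ⟨(t ×ˢ t).sup (fun c => len c.1 c.2), ?_⟩
  intro p q
  obtain ⟨γ, hγ, _⟩ := H.uniq p
  obtain ⟨γ', hγ', _⟩ := H.uniq q
  have hp := hcov (H.cpt.2 hγ)
  have hq := hcov (H.cpt.2 hγ')
  simp only [mem_iUnion, exists_prop] at hp hq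
  obtain ⟨a, ha, hpa⟩ := hp
  obtain ⟨b, hb, hqb⟩ := hq
  have hpa' : d a (γ • p) < min δ1 (δ / 4) := hpa
  have hqb' : d b (γ' • q) < min δ1 (δ / 4) := hqb
  refine ⟨len a b, hlen1 a b, Finset.le_sup (f := fun c : S × S => len c.1 c.2) (Finset.mem_product.2 ⟨ha, hb⟩ : (a, b) ∈ t ×ˢ t), ?_⟩
  have s1 := hE (γ • p) a (by rw [H.ds]; exact hpa'.le.trans (min_le_left _ _)) 1 (by simp)
  have s2 := ECT_first H (hlen1 a b) (hlen2 a b) s1 (by positivity)
  have s3 := ECT_last H (hlen1 a b) s2 (hqb'.le.trans (min_le_right _ _)) (by positivity)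
  have s4 := ECT_right γ' s3
  have s5 := ECT_left H γ⁻¹ s4
  rw [inv_smul_smul] at s5
  exact ECT_mono s5 (by linarith)

end

end Pool.Agent.VDE
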